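import Mathlib

/-! Random translates of a finite set of integers: collisions and additive energy. -/

open Finset

namespace Pool.Agent.E8helper70.Mon

variable {J M : ℕ}

lemma avg_update (i : Fin J) (G : (Fin J → Fin M) → ℕ) :
    ∑ s, ∑ v, G (Function.update s i v) = M * ∑ s, G s := by
  classical
  let f : ((Fin J → Fin M) × Fin M) → ((Fin J → Fin M) × Fin M) :=
    fun p => (Function.update p.1 i p.2, p.1 i)
  have hf : Function.Involutive f := by
    intro p
    obtain ⟨s, v⟩ := p
    simp only [f, Function.update_self]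
    rw [Function.update_idem, Function.update_eq_self]
  have h1 : ∑ s, ∑ v, G (Function.update s i v) = ∑ p : (Fin J → Fin M) × Fin M, G (f p).1 := by
    rw [Fintype.sum_prod_type]
  rw [h1]
  rw [Function.Bijective.sum_comp hf.bijective (fun p => G p.1)]
  rw [Fintype.sum_prod_type]
  simp only [Finset.sum_const, Finset.card_univ, Fintype.card_fin, smul_eq_mul]
  rw [← Finset.mul_sum]

lemma one_sol (i : Fin J) (P : (Fin J → Fin M) → Prop) [DecidablePred P]
    (h : ∀ s : Fin J → Fin M, ∀ v w : Fin M, P (Function.update s i v) → P (Function.update s i w) →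
      v = w) : M * #{s | P s} ≤ M ^ J := by
  classical
  rw [Finset.card_filter, ← avg_update i]
  calc ∑ s : Fin J → Fin M, ∑ v, (if P (Function.update s i v) then 1 else 0)
      ≤ ∑ _s : Fin J → Fin M, 1 := by
        apply Finset.sum_le_sum
        intro s _
        rw [← Finset.card_filter]
        rw [Finset.card_le_one]
        intro v hv w hw
        rw [Finset.mem_filter] at hv hw
        exact h s v w hv.2 hw.2
    _ = M ^ J := by
        rw [Finset.sum_const, Finset.card_univ, Fintype.card_fun, Fintype.card_fin, Fintype.card_fin,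
          smul_eq_mul, mul_one]

/-- the translate -/
def val (s : Fin J → Fin M) (p : ℤ × Fin J) : ℤ := p.1 + ((s p.2 : ℕ) : ℤ)

/-- the pairs with the same translate -/
def coll (P : Finset (ℤ × Fin J)) (s : Fin J → Fin M) : ℕ :=
  #((P ×ˢ P).filter fun x => val s x.1 = val s x.2)

/-- the quadruples -/
def enIdx (P : Finset (ℤ × Fin J)) (s : Fin J → Fin M) : ℕ :=
  #(((P ×ˢ P) ×ˢ (P ×ˢ P)).filter fun x =>
    val s x.1.1 + val s x.2.1 = val s x.1.2 + val s x.2.2)

lemma sum_coll (P : Finset (ℤ × Fin J)) :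
    M * ∑ s : Fin J → Fin M, coll P s ≤ (M * #P + #P ^ 2) * M ^ J := by
  classical
  have h1 : ∑ s : Fin J → Fin M, coll P s =
      ∑ x ∈ P ×ˢ P, #{s : Fin J → Fin M | val s x.1 = val s x.2} := by
    unfold coll
    simp only [Finset.card_filter]
    rw [Finset.sum_comm]
  rw [h1, Finset.mul_sum]
  have h2 : ∀ x ∈ P ×ˢ P, M * #{s : Fin J → Fin M | val s x.1 = val s x.2} ≤
      (if x.1 = x.2 then M * M ^ J else 0) + M ^ J := by
    intro x _
    by_cases hx : x.1 = x.2
    · rw [if_pos hx]
      have : #{s : Fin J → Fin M | val s x.1 = val s x.2} ≤ M ^ J := by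
        refine (Finset.card_le_univ _).trans ?_
        rw [Fintype.card_fun, Fintype.card_fin, Fintype.card_fin]
      nlinarith
    · rw [if_neg hx, zero_add]
      by_cases hj : x.1.2 = x.2.2
      · have : ({s : Fin J → Fin M | val s x.1 = val s x.2} : Finset _) = ∅ := by
          rw [Finset.filter_eq_empty_iff]
          intro s _ hs
          apply hx
          unfold val at hs
          rw [hj] at hs
          exact Prod.ext (by omega) hj
        rw [this]
        simp
      · apply one_sol x.1.2
        intro s v w hv hw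
        unfold val at hv hw
        rw [Function.update_self, Function.update_of_ne (Ne.symm hj)] at hv hw
        apply Fin.ext
        omega
  refine (Finset.sum_le_sum h2).trans ?_
  rw [Finset.sum_add_distrib, Finset.sum_const, Finset.card_product, smul_eq_mul]
  have h3 : ∑ x ∈ P ×ˢ P, (if x.1 = x.2 then M * M ^ J else 0) = #P * (M * M ^ J) := by
    rw [Finset.sum_product]
    simp only
    calc ∑ x ∈ P, ∑ y ∈ P, (if x = y then M * M ^ J else 0) = ∑ x ∈ P, M * M ^ J := by
          apply Finset.sum_congr rfl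
          intro x hx
          rw [Finset.sum_ite_eq, if_pos hx]
      _ = _ := by rw [Finset.sum_const, smul_eq_mul]
  rw [h3]
  apply le_of_eq
  ring

/-- the trivial index patterns -/
def Alt (x : ((ℤ × Fin J) × (ℤ × Fin J)) × ((ℤ × Fin J) × (ℤ × Fin J))) : Prop :=
  (x.1.1.2 = x.1.2.2 ∧ x.2.1.2 = x.2.2.2) ∨ (x.1.1.2 = x.2.2.2 ∧ x.2.1.2 = x.1.2.2)

instance (x : ((ℤ × Fin J) × (ℤ × Fin J)) × ((ℤ × Fin J) × (ℤ × Fin J))) : Decidable (Alt x) := by
  unfold Alt
  infer_instance

lemma alt_card (W : Finset ℤ) :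
    #((((W ×ˢ (univ : Finset (Fin J))) ×ˢ (W ×ˢ (univ : Finset (Fin J)))) ×ˢ
      ((W ×ˢ (univ : Finset (Fin J))) ×ˢ (W ×ˢ (univ : Finset (Fin J))))).filter fun x =>
        Alt x ∧ x.1.1.1 + x.2.1.1 = x.1.2.1 + x.2.2.1) ≤ 2 * J ^ 2 * #W ^ 3 := by
  classical
  set P := W ×ˢ (univ : Finset (Fin J)) with hP
  have hPc : #P = #W * J := by
    rw [hP, Finset.card_product, Finset.card_univ, Fintype.card_fin]
  set Q := (P ×ˢ P) ×ˢ (P ×ˢ P) with hQ
  have key : ∀ R : ((ℤ × Fin J) × (ℤ × Fin J)) × ((ℤ × Fin J) × (ℤ × Fin J)) → Prop,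
      (∀ x y, R x → R y → x.1.1 = y.1.1 → x.2.1 = y.2.1 → x.1.2.1 = y.1.2.1 → x = y) →
      ∀ [DecidablePred R], #(Q.filter R) ≤ #W ^ 3 * J ^ 2 := by
    intro R hR _
    have h1 : #(Q.filter R) ≤ #(P ×ˢ (P ×ˢ W)) := by
      apply Finset.card_le_card_of_injOn (fun x => (x.1.1, (x.2.1, x.1.2.1)))
      · intro x hx
        rw [Finset.mem_coe, Finset.mem_filter, hQ] at hx
        have h6 := Finset.mem_product.1 hx.1
        have h7 := Finset.mem_product.1 h6.1
        have h8 := Finset.mem_product.1 h6.2
        have h5 := h7.2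
        rw [hP, Finset.mem_product] at h5
        exact Finset.mem_coe.2 (Finset.mem_product.2 ⟨h7.1, Finset.mem_product.2 ⟨h8.1, h5.1⟩⟩)
      · intro x hx y hy hxy
        rw [Finset.mem_coe, Finset.mem_filter] at hx hy
        simp only [Prod.mk.injEq] at hxy
        exact hR x y hx.2 hy.2 hxy.1 hxy.2.1 hxy.2.2
    refine h1.trans (le_of_eq ?_)
    rw [Finset.card_product P, Finset.card_product P, hPc]
    ring
  have h1 := key (fun x => (x.1.1.2 = x.1.2.2 ∧ x.2.1.2 = x.2.2.2) ∧
    x.1.1.1 + x.2.1.1 = x.1.2.1 + x.2.2.1) (by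
      intro x y hx hy e1 e2 e3
      obtain ⟨⟨x1, x2⟩, x3⟩ := hx
      obtain ⟨⟨y1, y2⟩, y3⟩ := hy
      have f1 : x.1.2.2 = y.1.2.2 := by rw [← x1, ← y1, e1]
      have f2 : x.2.2.2 = y.2.2.2 := by rw [← x2, ← y2, e2]
      have f3 : x.2.2.1 = y.2.2.1 := by
        rw [e1, e2, e3] at x3
        omega
      exact Prod.ext (Prod.ext e1 (Prod.ext e3 f1)) (Prod.ext e2 (Prod.ext f3 f2)))
  have h2 := key (fun x => (x.1.1.2 = x.2.2.2 ∧ x.2.1.2 = x.1.2.2) ∧
    x.1.1.1 + x.2.1.1 = x.1.2.1 + x.2.2.1) (by
      intro x y hx hy e1 e2 e3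
      obtain ⟨⟨x1, x2⟩, x3⟩ := hx
      obtain ⟨⟨y1, y2⟩, y3⟩ := hy
      have f1 : x.1.2.2 = y.1.2.2 := by rw [← x2, ← y2, e2]
      have f2 : x.2.2.2 = y.2.2.2 := by rw [← x1, ← y1, e1]
      have f3 : x.2.2.1 = y.2.2.1 := by
        rw [e1, e2, e3] at x3
        omega
      exact Prod.ext (Prod.ext e1 (Prod.ext e3 f1)) (Prod.ext e2 (Prod.ext f3 f2)))
  have h3 : (Q.filter fun x => Alt x ∧ x.1.1.1 + x.2.1.1 = x.1.2.1 + x.2.2.1) ⊆
      (Q.filter fun x => (x.1.1.2 = x.1.2.2 ∧ x.2.1.2 = x.2.2.2) ∧
        x.1.1.1 + x.2.1.1 = x.1.2.1 + x.2.2.1) ∪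
      (Q.filter fun x => (x.1.1.2 = x.2.2.2 ∧ x.2.1.2 = x.1.2.2) ∧
        x.1.1.1 + x.2.1.1 = x.1.2.1 + x.2.2.1) := by
    intro x hx
    rw [Finset.mem_filter] at hx
    rw [Finset.mem_union, Finset.mem_filter, Finset.mem_filter]
    rcases hx.2.1 with h | h
    · exact Or.inl ⟨hx.1, h, hx.2.2⟩
    · exact Or.inr ⟨hx.1, h, hx.2.2⟩
  have h4 := (Finset.card_le_card h3).trans (Finset.card_union_le _ _)
  refine h4.trans ((add_le_add h1 h2).trans (le_of_eq ?_))
  ring

lemma sum_en (W : Finset ℤ) :
    M * ∑ s : Fin J → Fin M, enIdx (W ×ˢ (univ : Finset (Fin J))) s ≤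
      (M * (2 * J ^ 2 * #W ^ 3) + (#W * J) ^ 4) * M ^ J := by
  classical
  set P := W ×ˢ (univ : Finset (Fin J)) with hP
  have hPc : #P = #W * J := by
    rw [hP, Finset.card_product, Finset.card_univ, Fintype.card_fin]
  have h1 : ∑ s : Fin J → Fin M, enIdx P s =
      ∑ x ∈ (P ×ˢ P) ×ˢ (P ×ˢ P), #{s : Fin J → Fin M |
        val s x.1.1 + val s x.2.1 = val s x.1.2 + val s x.2.2} := by
    unfold enIdx
    simp only [Finset.card_filter]
    rw [Finset.sum_comm]
  rw [h1, Finset.mul_sum]
  have h2 : ∀ x ∈ (P ×ˢ P) ×ˢ (P ×ˢ P), M * #{s : Fin J → Fin M |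
        val s x.1.1 + val s x.2.1 = val s x.1.2 + val s x.2.2} ≤
      (if Alt x ∧ x.1.1.1 + x.2.1.1 = x.1.2.1 + x.2.2.1 then M * M ^ J else 0) + M ^ J := by
    intro x _
    obtain ⟨⟨⟨a, i⟩, ⟨b, j⟩⟩, ⟨⟨c, k⟩, ⟨d, l⟩⟩⟩ := x
    by_cases hA : Alt (((a, i), (b, j)), ((c, k), (d, l)))
    · by_cases he : a + c = b + d
      · rw [if_pos ⟨hA, he⟩]
        have : #{s : Fin J → Fin M | val s (a, i) + val s (c, k) = val s (b, j) + val s (d, l)} ≤
            M ^ J := by
          refine (Finset.card_le_univ _).trans ?_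
          rw [Fintype.card_fun, Fintype.card_fin, Fintype.card_fin]
        simp only
        nlinarith
      · rw [if_neg (fun h => he h.2), zero_add]
        have : ({s : Fin J → Fin M | val s (a, i) + val s (c, k) = val s (b, j) + val s (d, l)} :
            Finset _) = ∅ := by
          rw [Finset.filter_eq_empty_iff]
          intro s _ hs
          apply he
          unfold val at hs
          unfold Alt at hA
          simp only at hs hA
          rcases hA with ⟨h1, h2⟩ | ⟨h1, h2⟩
          · rw [h1, h2] at hs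
            omega
          · rw [h1, h2] at hs
            omega
        simp only
        rw [this]
        simp
    · rw [if_neg (fun h => hA h.1), zero_add]
      unfold Alt at hA
      simp only at hA
      push Not at hA
      obtain ⟨h1, h2⟩ := hA
      simp only
      by_cases hij : j = i
      · -- then k ≠ l ; use k
        have hkl : k ≠ l := h1 hij.symm
        apply one_sol k
        intro s v w hv hw
        unfold val at hv hw
        simp only [Function.update_apply] at hv hw
        apply Fin.ext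
        rw [hij] at hv hw h2
        have h3 : ¬ l = k := fun h => hkl h.symm
        rw [if_pos trivial, if_neg h3] at hv hw
        by_cases hik : i = k
        · rw [if_pos hik] at hv hw
          omega
        · rw [if_neg hik] at hv hw
          omega
      · by_cases hil : l = i
        · have hkj : k ≠ j := h2 hil.symm
          apply one_sol k
          intro s v w hv hw
          unfold val at hv hw
          simp only [Function.update_apply] at hv hw
          apply Fin.ext
          rw [hil] at hv hw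
          have h3 : ¬ j = k := fun h => hkj h.symm
          rw [if_pos trivial, if_neg h3] at hv hw
          by_cases hik : i = k
          · rw [if_pos hik] at hv hw
            omega
          · rw [if_neg hik] at hv hw
            omega
        · apply one_sol i
          intro s v w hv hw
          unfold val at hv hw
          simp only [Function.update_apply] at hv hw
          apply Fin.ext
          rw [if_pos trivial, if_neg hij, if_neg hil] at hv hw
          by_cases hik : k = i
          · rw [if_pos hik] at hv hw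
            omega
          · rw [if_neg hik] at hv hw
            omega
  refine (Finset.sum_le_sum h2).trans ?_
  rw [Finset.sum_add_distrib, Finset.sum_const, Finset.card_product, Finset.card_product, smul_eq_mul,
    ← Finset.sum_filter, Finset.sum_const, smul_eq_mul, hPc]
  have h3 := alt_card (J := J) W
  rw [← hP] at h3
  calc _ ≤ (2 * J ^ 2 * #W ^ 3) * (M * M ^ J) + #W * J * (#W * J) * (#W * J * (#W * J)) * M ^ J :=
        Nat.add_le_add_right (Nat.mul_le_mul_right _ h3) _
    _ = _ := by ring

end Pool.Agent.E8helper70.Mon
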