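import Mathlib

/-! Random signs: a bound for many sums at once, and a lower bound by flipping one sign. -/

open Finset

namespace Pool.Agent.E8helper70.Mon

/-- the sign of a Boolean -/
def sg (e : Bool) : ℝ := if e then 1 else -1

lemma sg_not (e : Bool) : sg (!e) = - sg e := by cases e <;> simp [sg]

lemma abs_sg (e : Bool) : |sg e| = 1 := by cases e <;> simp [sg]

variable {J : ℕ}

lemma sum_exp (x : Fin J → ℝ) :
    ∑ e : Fin J → Bool, Real.exp (∑ j, sg (e j) * x j) = ∏ j, (2 * Real.cosh (x j)) := by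
  have h : ∀ j, 2 * Real.cosh (x j) = ∑ b : Bool, Real.exp (sg b * x j) := by
    intro j
    rw [Fintype.sum_bool, Real.cosh_eq]
    simp [sg]
    ring
  simp_rw [h]
  rw [Finset.prod_univ_sum]
  rw [Fintype.piFinset_univ]
  apply Finset.sum_congr rfl
  intro e _
  rw [Real.exp_sum]

lemma sum_exp_le (x : Fin J → ℝ) (hx : ∀ j, |x j| ≤ 1) (θ : ℝ) :
    ∑ e : Fin J → Bool, Real.exp (θ * ∑ j, sg (e j) * x j) ≤ 2 ^ J * Real.exp (J * θ ^ 2 / 2) := by
  have h1 : ∀ e : Fin J → Bool, θ * ∑ j, sg (e j) * x j = ∑ j, sg (e j) * (θ * x j) := by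
    intro e
    rw [Finset.mul_sum]
    apply Finset.sum_congr rfl
    intro j _
    ring
  simp_rw [h1]
  rw [sum_exp]
  calc ∏ j, (2 * Real.cosh (θ * x j)) ≤ ∏ _j : Fin J, (2 * Real.exp (θ ^ 2 / 2)) := by
        apply Finset.prod_le_prod
        · intro j _
          have := Real.cosh_pos (θ * x j)
          positivity
        · intro j _
          have h2 := Real.cosh_le_exp_half_sq (θ * x j)
          have h3 : (θ * x j) ^ 2 / 2 ≤ θ ^ 2 / 2 := by
            have h4 : (x j) ^ 2 ≤ 1 := by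
              rw [← sq_abs]
              have := hx j
              have h0 := abs_nonneg (x j)
              nlinarith
            have h5 : 0 ≤ θ ^ 2 := sq_nonneg θ
            nlinarith
          have h6 := Real.exp_le_exp.2 h3
          linarith
    _ = 2 ^ J * Real.exp (J * θ ^ 2 / 2) := by
        rw [Finset.prod_const, Finset.card_univ, Fintype.card_fin, mul_pow, ← Real.exp_nat_mul]
        congr 2
        ring

/-- large deviations of a real random sum -/
lemma tail (x : Fin J → ℝ) (hx : ∀ j, |x j| ≤ 1) {lam K : ℝ} (hK : 1 ≤ K) (hJ : 1 ≤ J)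
    (hlam : lam ^ 2 = 2 * J * Real.log (16 * K)) (hl0 : 0 ≤ lam) :
    (#{e : Fin J → Bool | lam < |∑ j, sg (e j) * x j|} : ℝ) ≤ 2 ^ J / (8 * K) := by
  have hJ0 : (0 : ℝ) < J := by exact_mod_cast hJ
  set θ : ℝ := lam / J with hθ
  have hθ0 : 0 ≤ θ := by positivity
  set F : (Fin J → Bool) → ℝ := fun e => Real.exp (θ * ∑ j, sg (e j) * x j) +
    Real.exp (-θ * ∑ j, sg (e j) * x j) with hF
  have h1 : ∑ e, F e ≤ 2 * (2 ^ J * Real.exp (J * θ ^ 2 / 2)) := by
    rw [hF]
    rw [Finset.sum_add_distrib]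
    have h2 := sum_exp_le x hx θ
    have h3 := sum_exp_le x hx (-θ)
    rw [neg_sq] at h3
    linarith
  have h2 : (#{e : Fin J → Bool | lam < |∑ j, sg (e j) * x j|} : ℝ) * Real.exp (θ * lam) ≤ ∑ e, F e := by
    rw [← nsmul_eq_mul, ← Finset.sum_const]
    calc ∑ _e ∈ {e : Fin J → Bool | lam < |∑ j, sg (e j) * x j|}, Real.exp (θ * lam)
        ≤ ∑ e ∈ {e : Fin J → Bool | lam < |∑ j, sg (e j) * x j|}, F e := by
          apply Finset.sum_le_sum
          intro e he
          rw [Finset.mem_filter] at he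
          have h3 := he.2.le
          rw [hF]
          simp only
          rcases le_abs.1 h3 with h4 | h4
          · have h5 : θ * lam ≤ θ * ∑ j, sg (e j) * x j := mul_le_mul_of_nonneg_left h4 hθ0
            have h6 := Real.exp_le_exp.2 h5
            have h7 := Real.exp_pos (-θ * ∑ j, sg (e j) * x j)
            linarith
          · have h5 : θ * lam ≤ -θ * ∑ j, sg (e j) * x j := by
              have := mul_le_mul_of_nonneg_left h4 hθ0
              linarith
            have h6 := Real.exp_le_exp.2 h5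
            have h7 := Real.exp_pos (θ * ∑ j, sg (e j) * x j)
            linarith
      _ ≤ ∑ e, F e := by
          apply Finset.sum_le_sum_of_subset_of_nonneg (Finset.subset_univ _)
          intro e _ _
          rw [hF]
          positivity
  have h3 : θ * lam = lam ^ 2 / J := by rw [hθ]; ring
  have h4 : J * θ ^ 2 / 2 = lam ^ 2 / J / 2 := by
    rw [hθ]
    field_simp
  have h5 : lam ^ 2 / J = 2 * Real.log (16 * K) := by
    rw [hlam]
    field_simp
  rw [h3, h5] at h2
  rw [h4, h5] at h1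
  have h6 : Real.exp (2 * Real.log (16 * K)) = (16 * K) ^ 2 := by
    rw [mul_comm, Real.exp_mul, Real.exp_log (by positivity)]
    norm_cast
  have h7 : Real.exp (2 * Real.log (16 * K) / 2) = 16 * K := by
    rw [mul_div_cancel_left₀ _ (by norm_num : (2 : ℝ) ≠ 0), Real.exp_log (by positivity)]
  rw [h6] at h2
  rw [h7] at h1
  rw [le_div_iff₀ (by positivity)]
  have h8 := h2.trans h1
  have hKp : 0 < 16 * K := by positivity
  have h9 : (#{e : Fin J → Bool | lam < |∑ j, sg (e j) * x j|} : ℝ) * (16 * K) ≤ 2 * 2 ^ J := by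
    by_contra hcon
    push Not at hcon
    nlinarith
  linarith

/-- many complex sums at once -/
lemma sup_bound (I : Finset ℕ) (hI : I.Nonempty) (z : Fin J → ℕ → ℂ) (hz : ∀ j n, ‖z j n‖ ≤ 1)
    (hJ : 1 ≤ J) :
    (#{e : Fin J → Bool | ∃ n ∈ I, 2 * √J * √(Real.log (16 * #I)) <
      ‖∑ j, (sg (e j) : ℂ) * z j n‖} : ℝ) ≤ 2 ^ J / 4 := by
  classical
  have hK : (1 : ℝ) ≤ #I := by exact_mod_cast hI.card_pos
  have hJ0 : (0 : ℝ) < J := by exact_mod_cast hJ
  set lam : ℝ := √(2 * J * Real.log (16 * #I)) with hlam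
  have hlog : 0 ≤ Real.log (16 * #I) := Real.log_nonneg (by linarith)
  have hlam2 : lam ^ 2 = 2 * J * Real.log (16 * #I) := Real.sq_sqrt (by positivity)
  have hlam0 : 0 ≤ lam := Real.sqrt_nonneg _
  have hre : ∀ n, (#{e : Fin J → Bool | lam < |∑ j, sg (e j) * (z j n).re|} : ℝ) ≤
      2 ^ J / (8 * #I) := fun n => tail _ (fun j => (Complex.abs_re_le_norm _).trans (hz j n)) hK hJ
        hlam2 hlam0
  have him : ∀ n, (#{e : Fin J → Bool | lam < |∑ j, sg (e j) * (z j n).im|} : ℝ) ≤
      2 ^ J / (8 * #I) := fun n => tail _ (fun j => (Complex.abs_im_le_norm _).trans (hz j n)) hK hJ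
        hlam2 hlam0
  have hsub : ({e : Fin J → Bool | ∃ n ∈ I, 2 * √J * √(Real.log (16 * #I)) <
      ‖∑ j, (sg (e j) : ℂ) * z j n‖} : Finset (Fin J → Bool)) ⊆
      I.biUnion (fun n => ({e : Fin J → Bool | lam < |∑ j, sg (e j) * (z j n).re|} : Finset _) ∪
        ({e : Fin J → Bool | lam < |∑ j, sg (e j) * (z j n).im|} : Finset _)) := by
    intro e he
    rw [Finset.mem_filter] at he
    obtain ⟨-, n, hn, h⟩ := he
    rw [Finset.mem_biUnion]
    refine ⟨n, hn, ?_⟩
    rw [Finset.mem_union, Finset.mem_filter, Finset.mem_filter]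
    by_contra hcon
    push Not at hcon
    have h1 := hcon.1 (Finset.mem_univ _)
    have h2 := hcon.2 (Finset.mem_univ _)
    have e1 : (∑ j, (sg (e j) : ℂ) * z j n).re = ∑ j, sg (e j) * (z j n).re := by
      rw [Complex.re_sum]
      apply Finset.sum_congr rfl
      intro j _
      rw [Complex.re_ofReal_mul]
    have e2 : (∑ j, (sg (e j) : ℂ) * z j n).im = ∑ j, sg (e j) * (z j n).im := by
      rw [Complex.im_sum]
      apply Finset.sum_congr rfl
      intro j _
      rw [Complex.im_ofReal_mul]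
    rw [← e1] at h1
    rw [← e2] at h2
    have h3 : ‖∑ j, (sg (e j) : ℂ) * z j n‖ ^ 2 ≤ 2 * lam ^ 2 := by
      rw [← Complex.normSq_eq_norm_sq, Complex.normSq_apply]
      have h4 := sq_le_sq' (by linarith [abs_nonneg (∑ j, (sg (e j) : ℂ) * z j n).re]) h1
      have h5 := sq_le_sq' (by linarith [abs_nonneg (∑ j, (sg (e j) : ℂ) * z j n).im]) h2
      rw [sq_abs] at h4 h5
      nlinarith
    have h4 : (2 * √J * √(Real.log (16 * #I))) ^ 2 = 2 * lam ^ 2 := by
      rw [mul_pow, mul_pow, Real.sq_sqrt hJ0.le, Real.sq_sqrt hlog, hlam2]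
      ring
    rw [← h4] at h3
    have h5 := abs_le_of_sq_le_sq' h3 (by positivity)
    linarith [h5.2]
  calc (#{e : Fin J → Bool | ∃ n ∈ I, 2 * √J * √(Real.log (16 * #I)) <
      ‖∑ j, (sg (e j) : ℂ) * z j n‖} : ℝ)
      ≤ (#(I.biUnion (fun n => ({e : Fin J → Bool | lam < |∑ j, sg (e j) * (z j n).re|} : Finset _) ∪
        ({e : Fin J → Bool | lam < |∑ j, sg (e j) * (z j n).im|} : Finset _))) : ℝ) := by
        exact_mod_cast Finset.card_le_card hsub
    _ ≤ ∑ n ∈ I, (#(({e : Fin J → Bool | lam < |∑ j, sg (e j) * (z j n).re|} : Finset _) ∪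
        ({e : Fin J → Bool | lam < |∑ j, sg (e j) * (z j n).im|} : Finset _)) : ℝ) := by
        exact_mod_cast Finset.card_biUnion_le
    _ ≤ ∑ n ∈ I, (2 ^ J / (8 * #I) + 2 ^ J / (8 * #I) : ℝ) := by
        apply Finset.sum_le_sum
        intro n _
        have h1 : (#(({e : Fin J → Bool | lam < |∑ j, sg (e j) * (z j n).re|} : Finset _) ∪
          ({e : Fin J → Bool | lam < |∑ j, sg (e j) * (z j n).im|} : Finset _)) : ℝ) ≤
          (#({e : Fin J → Bool | lam < |∑ j, sg (e j) * (z j n).re|} : Finset _) : ℝ) +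
          (#({e : Fin J → Bool | lam < |∑ j, sg (e j) * (z j n).im|} : Finset _) : ℝ) := by
          exact_mod_cast Finset.card_union_le _ _
        linarith [hre n, him n]
    _ = 2 ^ J / 4 := by
        rw [Finset.sum_const, nsmul_eq_mul]
        field_simp
        norm_num

/-- flipping one sign -/
lemma flip_half (a : Fin J → ℂ) (j : Fin J) :
    (2 : ℝ) ^ J / 2 ≤ #{e : Fin J → Bool | ‖a j‖ ≤ ‖∑ i, (sg (e i) : ℂ) * a i‖} := by
  classical
  set S : (Fin J → Bool) → ℂ := fun e => ∑ i, (sg (e i) : ℂ) * a i with hS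
  let fl : (Fin J → Bool) → (Fin J → Bool) := fun e => Function.update e j (!(e j))
  have hfl : ∀ e, fl (fl e) = e := by
    intro e
    funext i
    by_cases hi : i = j
    · subst hi
      simp [fl]
    · simp [fl, hi]
  have hinj : Function.Injective fl := Function.LeftInverse.injective hfl
  have hdiff : ∀ e, S e - S (fl e) = 2 * ((sg (e j) : ℂ) * a j) := by
    intro e
    rw [hS]
    simp only
    rw [← Finset.sum_sub_distrib]
    rw [Finset.sum_eq_single j]
    · simp only [fl, Function.update_self, sg_not]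
      push_cast
      ring
    · intro i _ hi
      simp only [fl, Function.update_of_ne hi]
      ring
    · intro h
      exact absurd (Finset.mem_univ _) h
  set B : Finset (Fin J → Bool) := {e : Fin J → Bool | ‖S e‖ < ‖a j‖} with hB
  set G : Finset (Fin J → Bool) := {e : Fin J → Bool | ‖a j‖ ≤ ‖S e‖} with hG
  have hBG : B.image fl ⊆ G := by
    intro e he
    rw [Finset.mem_image] at he
    obtain ⟨e', he', rfl⟩ := he
    rw [hB, Finset.mem_filter] at he'
    rw [hG, Finset.mem_filter]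
    refine ⟨Finset.mem_univ _, ?_⟩
    by_contra hcon
    push Not at hcon
    have h1 : ‖S e' - S (fl e')‖ = 2 * ‖a j‖ := by
      rw [hdiff, norm_mul, norm_mul, Complex.norm_real, Real.norm_eq_abs, abs_sg, one_mul]
      norm_num
    have h2 := norm_sub_le (S e') (S (fl e'))
    rw [h1] at h2
    linarith [he'.2]
  have h1 : #B ≤ #G := by
    rw [← Finset.card_image_of_injective B hinj]
    exact Finset.card_le_card hBG
  have h2 : #B + #G = 2 ^ J := by
    have h3 : #G + #({e : Fin J → Bool | ¬ ‖a j‖ ≤ ‖S e‖} : Finset _) =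
        #(Finset.univ : Finset (Fin J → Bool)) := Finset.card_filter_add_card_filter_not _
    have h4 : ({e : Fin J → Bool | ¬ ‖a j‖ ≤ ‖S e‖} : Finset _) = B := by
      rw [hB]
      apply Finset.filter_congr
      intro e _
      rw [not_le]
    rw [h4, Finset.card_univ, Fintype.card_fun, Fintype.card_bool, Fintype.card_fin] at h3
    omega
  have h3 : (#B : ℝ) ≤ #G := by exact_mod_cast h1
  have h4 : (#B : ℝ) + #G = 2 ^ J := by exact_mod_cast h2
  linarith

/-- one choice of signs which is good for at least a quarter of the pairs -/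
theorem signs (I : Finset ℕ) (hI : I.Nonempty) (z : Fin J → ℕ → ℂ) (hz : ∀ j n, ‖z j n‖ ≤ 1)
    (hJ : 1 ≤ J) {τ : Type*} [DecidableEq τ] (W : Finset τ) (a : τ → Fin J → Fin J → ℂ) :
    ∃ e : Fin J → Bool,
      (∀ n ∈ I, ‖∑ j, (sg (e j) : ℂ) * z j n‖ ≤ 2 * √J * √(Real.log (16 * #I))) ∧
      (#W * J / 4 : ℝ) ≤ #((W ×ˢ (Finset.univ : Finset (Fin J))).filter
        (fun p => ‖a p.1 p.2 p.2‖ ≤ ‖∑ i, (sg (e i) : ℂ) * a p.1 p.2 i‖)) := by
  classical
  by_contra hcon
  push Not at hcon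
  set Bad : Finset (Fin J → Bool) := {e : Fin J → Bool | ∃ n ∈ I, 2 * √J * √(Real.log (16 * #I)) <
      ‖∑ j, (sg (e j) : ℂ) * z j n‖} with hBad
  have hb := sup_bound I hI z hz hJ
  rw [← hBad] at hb
  set P := W ×ˢ (Finset.univ : Finset (Fin J)) with hP
  have hPc : (#P : ℝ) = #W * J := by
    rw [hP, Finset.card_product, Finset.card_univ, Fintype.card_fin]
    push_cast
    rfl
  set g : (Fin J → Bool) → ℝ := fun e => (#(P.filter
        (fun p => ‖a p.1 p.2 p.2‖ ≤ ‖∑ i, (sg (e i) : ℂ) * a p.1 p.2 i‖)) : ℝ) with hg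
  have h1 : (#P : ℝ) * (2 ^ J / 2) ≤ ∑ e, g e := by
    have h2 : ∑ e, g e = ∑ p ∈ P, (#{e : Fin J → Bool | ‖a p.1 p.2 p.2‖ ≤
        ‖∑ i, (sg (e i) : ℂ) * a p.1 p.2 i‖} : ℝ) := by
      rw [hg]
      simp only [Finset.card_filter, Nat.cast_sum]
      rw [Finset.sum_comm]
    rw [h2]
    rw [← nsmul_eq_mul, ← Finset.sum_const]
    apply Finset.sum_le_sum
    intro p _
    exact flip_half (a p.1 p.2) p.2
  have hgP : ∀ e, g e ≤ #P := by
    intro e
    simp only [hg]
    exact Nat.cast_le.2 (Finset.card_filter_le _ _)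
  have h2 : ∑ e, g e = ∑ e ∈ Bad, g e + ∑ e ∈ Badᶜ, g e := (Finset.sum_add_sum_compl Bad g).symm
  have h3 : ∑ e ∈ Bad, g e ≤ 2 ^ J / 4 * #P := by
    calc ∑ e ∈ Bad, g e ≤ ∑ _e ∈ Bad, (#P : ℝ) := Finset.sum_le_sum fun e _ => hgP e
      _ = #Bad * #P := by rw [Finset.sum_const, nsmul_eq_mul]
      _ ≤ 2 ^ J / 4 * #P := mul_le_mul_of_nonneg_right hb (by positivity)
  have hne : (Badᶜ).Nonempty := by
    rw [Finset.nonempty_iff_ne_empty]
    intro h
    rw [Finset.compl_eq_empty_iff] at h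
    rw [h, Finset.card_univ, Fintype.card_fun, Fintype.card_bool, Fintype.card_fin] at hb
    push_cast at hb
    have : (0 : ℝ) < 2 ^ J := by positivity
    linarith
  have h4 : ∑ e ∈ Badᶜ, g e < #(Badᶜ) * (#P / 4 : ℝ) := by
    rw [← nsmul_eq_mul, ← Finset.sum_const]
    apply Finset.sum_lt_sum_of_nonempty hne
    intro e he
    rw [Finset.mem_compl, hBad, Finset.mem_filter] at he
    push Not at he
    have h5 := hcon e (he (Finset.mem_univ _))
    rw [hPc]
    exact h5
  have h5 : (#(Badᶜ) : ℝ) ≤ 2 ^ J := by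
    have : #(Badᶜ) ≤ #(Finset.univ : Finset (Fin J → Bool)) := Finset.card_le_univ _
    rw [Finset.card_univ, Fintype.card_fun, Fintype.card_bool, Fintype.card_fin] at this
    exact_mod_cast this
  have h6 : (#(Badᶜ) : ℝ) * (#P / 4 : ℝ) ≤ 2 ^ J * (#P / 4 : ℝ) :=
    mul_le_mul_of_nonneg_right h5 (by positivity)
  linarith

end Pool.Agent.E8helper70.Mon
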