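import Mathlib
import Pool.Agent.E8helper70.Mon.Signs
import Pool.Agent.E8helper70.Mon.Shifts

/-! The superposition of random translates of a Dirichlet polynomial. -/

open Finset

namespace Pool.Agent.E8helper70.Mon

/-- `n^{it}` -/
noncomputable def nt (t : ℤ) (n : ℕ) : ℂ :=
  Complex.exp ((((t : ℝ) * Real.log (n : ℝ) : ℝ) : ℂ) * Complex.I)

/-- the Dirichlet polynomial `D(t) = ∑_{N ≤ n ≤ 2N} b_n n^{it}` -/
noncomputable def D (N : ℕ) (b : ℕ → ℂ) (t : ℤ) : ℂ := ∑ n ∈ Icc N (2 * N), b n * nt t n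

lemma norm_nt (t : ℤ) (n : ℕ) : ‖nt t n‖ = 1 := by
  unfold nt
  rw [Complex.norm_exp_ofReal_mul_I]

lemma nt_add (t u : ℤ) (n : ℕ) : nt (t + u) n = nt t n * nt u n := by
  unfold nt
  rw [← Complex.exp_add]
  congr 1
  push_cast
  ring

variable {J M : ℕ}

lemma shifts (W : Finset ℤ) (hW : W.Nonempty) (hJ : 1 ≤ J) (hM : 1 ≤ M) :
    ∃ s : Fin J → Fin M,
      (coll (W ×ˢ (univ : Finset (Fin J))) s : ℝ) ≤ 2 * (#W * J + (#W * J : ℝ) ^ 2 / M) ∧
      (enIdx (W ×ˢ (univ : Finset (Fin J))) s : ℝ) ≤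
        2 * (2 * J ^ 2 * #W ^ 3 + (#W * J : ℝ) ^ 4 / M) := by
  classical
  have hM0 : (0 : ℝ) < M := by exact_mod_cast hM
  have hJ0 : (0 : ℝ) < J := by exact_mod_cast hJ
  have hW0 : (0 : ℝ) < #W := by exact_mod_cast hW.card_pos
  set P := W ×ˢ (univ : Finset (Fin J)) with hP
  have hPc : #P = #W * J := by
    rw [hP, Finset.card_product, Finset.card_univ, Fintype.card_fin]
  set a : ℝ := #W * J + (#W * J : ℝ) ^ 2 / M with ha
  set b : ℝ := 2 * J ^ 2 * #W ^ 3 + (#W * J : ℝ) ^ 4 / M with hb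
  have ha0 : 0 < a := by positivity
  have hb0 : 0 < b := by positivity
  have h1 : (M : ℝ) * ∑ s : Fin J → Fin M, (coll P s : ℝ) ≤ (M * a) * M ^ J := by
    have h := sum_coll (J := J) (M := M) P
    rw [hPc] at h
    have h' : (M : ℝ) * ∑ s : Fin J → Fin M, (coll P s : ℝ) ≤
        (M * (#W * J) + (#W * J) ^ 2) * M ^ J := by exact_mod_cast h
    refine h'.trans (le_of_eq ?_)
    rw [ha]
    field_simp
  have h2 : (M : ℝ) * ∑ s : Fin J → Fin M, (enIdx P s : ℝ) ≤ (M * b) * M ^ J := by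
    have h := sum_en (J := J) (M := M) W
    rw [← hP] at h
    have h' : (M : ℝ) * ∑ s : Fin J → Fin M, (enIdx P s : ℝ) ≤
        (M * (2 * J ^ 2 * #W ^ 3) + (#W * J) ^ 4) * M ^ J := by exact_mod_cast h
    refine h'.trans (le_of_eq ?_)
    rw [hb]
    field_simp
  have h1' : ∑ s : Fin J → Fin M, (coll P s : ℝ) ≤ a * M ^ J := by
    rw [mul_assoc] at h1
    exact le_of_mul_le_mul_left h1 hM0
  have h2' : ∑ s : Fin J → Fin M, (enIdx P s : ℝ) ≤ b * M ^ J := by
    rw [mul_assoc] at h2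
    exact le_of_mul_le_mul_left h2 hM0
  have hne : (univ : Finset (Fin J → Fin M)).Nonempty := by
    have : Nonempty (Fin M) := ⟨⟨0, hM⟩⟩
    exact Finset.univ_nonempty
  obtain ⟨s, -, hs⟩ := Finset.exists_le_of_sum_le (s := (univ : Finset (Fin J → Fin M)))
    (f := fun s => (coll P s : ℝ) / a + (enIdx P s : ℝ) / b) (g := fun _ => (2 : ℝ)) hne (by
      rw [Finset.sum_add_distrib, ← Finset.sum_div, ← Finset.sum_div, Finset.sum_const,
        Finset.card_univ, Fintype.card_fun, Fintype.card_fin, Fintype.card_fin, nsmul_eq_mul]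
      push_cast
      have e1 : (∑ s : Fin J → Fin M, (coll P s : ℝ)) / a ≤ M ^ J := by
        rw [div_le_iff₀ ha0]
        linarith
      have e2 : (∑ s : Fin J → Fin M, (enIdx P s : ℝ)) / b ≤ M ^ J := by
        rw [div_le_iff₀ hb0]
        linarith
      linarith)
  have hs : (coll P s : ℝ) / a + (enIdx P s : ℝ) / b ≤ 2 := hs
  have c1 : 0 ≤ (coll P s : ℝ) / a := by positivity
  have c2 : 0 ≤ (enIdx P s : ℝ) / b := by positivity
  refine ⟨s, ?_, ?_⟩
  · have : (coll P s : ℝ) / a ≤ 2 := by linarith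
    rwa [div_le_iff₀ ha0] at this
  · have : (enIdx P s : ℝ) / b ≤ 2 := by linarith
    rwa [div_le_iff₀ hb0] at this

lemma image_card (P G : Finset (ℤ × Fin J)) (hG : G ⊆ P) (s : Fin J → Fin M) (c : ℤ) :
    #G ^ 2 ≤ #(G.image fun p => val s p - c) * coll P s := by
  classical
  set U := G.image fun p => val s p - c with hU
  have h1 : #G = ∑ u ∈ U, #(G.filter fun p => val s p - c = u) :=
    Finset.card_eq_sum_card_image (fun p => val s p - c) G
  have h2 : ∑ u ∈ U, #(G.filter fun p => val s p - c = u) ^ 2 ≤ coll P s := by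
    have h3 : ∑ u ∈ U, #(G.filter fun p => val s p - c = u) ^ 2 =
        #((G ×ˢ G).filter fun x => val s x.1 = val s x.2) := by
      rw [Finset.card_eq_sum_card_fiberwise (f := fun x : (ℤ × Fin J) × (ℤ × Fin J) => val s x.1 - c)
        (t := U)]
      · apply Finset.sum_congr rfl
        intro u _
        rw [sq, ← Finset.card_product]
        congr 1
        ext x
        rw [Finset.mem_product, Finset.mem_filter, Finset.mem_filter, Finset.mem_filter,
          Finset.mem_filter, Finset.mem_product]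
        constructor
        · rintro ⟨⟨a1, a2⟩, ⟨a3, a4⟩⟩
          exact ⟨⟨⟨a1, a3⟩, by omega⟩, a2⟩
        · rintro ⟨⟨⟨a1, a3⟩, a4⟩, a2⟩
          exact ⟨⟨a1, a2⟩, ⟨a3, by omega⟩⟩
      · intro x hx
        rw [Finset.mem_coe, Finset.mem_filter, Finset.mem_product] at hx
        rw [Finset.mem_coe, hU]
        exact Finset.mem_image_of_mem _ hx.1.1
    rw [h3]
    unfold coll
    apply Finset.card_le_card
    apply Finset.filter_subset_filter
    exact Finset.product_subset_product hG hG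
  calc #G ^ 2 = (∑ u ∈ U, #(G.filter fun p => val s p - c = u)) ^ 2 := by rw [← h1]
    _ ≤ #U * ∑ u ∈ U, #(G.filter fun p => val s p - c = u) ^ 2 := sq_sum_le_card_mul_sum_sq
    _ ≤ #U * coll P s := Nat.mul_le_mul_left _ h2

lemma image_energy (hJ : 1 ≤ J) (P G : Finset (ℤ × Fin J)) (hG : G ⊆ P) (s : Fin J → Fin M) (c : ℤ) :
    Finset.addEnergy (G.image fun p => val s p - c) (G.image fun p => val s p - c) ≤ enIdx P s := by
  classical
  set U := G.image fun p => val s p - c with hU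
  have hex : ∀ u : ℤ, ∃ p : ℤ × Fin J, u ∈ U → p ∈ G ∧ val s p - c = u := by
    intro u
    by_cases hu : u ∈ U
    · rw [hU, Finset.mem_image] at hu
      obtain ⟨p, hp, h⟩ := hu
      exact ⟨p, fun _ => ⟨hp, h⟩⟩
    · exact ⟨(0, ⟨0, hJ⟩), fun h => absurd h hu⟩
  choose g hg using hex
  unfold Finset.addEnergy enIdx
  apply Finset.card_le_card_of_injOn
    (fun x : (ℤ × ℤ) × (ℤ × ℤ) => ((g x.1.1, g x.1.2), (g x.2.1, g x.2.2)))
  · intro x hx
    rw [Finset.mem_coe, Finset.mem_filter] at hx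
    have h1 := Finset.mem_product.1 hx.1
    have h2 := Finset.mem_product.1 h1.1
    have h3 := Finset.mem_product.1 h1.2
    have k1 := hg _ h2.1
    have k2 := hg _ h2.2
    have k3 := hg _ h3.1
    have k4 := hg _ h3.2
    rw [Finset.mem_coe, Finset.mem_filter]
    refine ⟨Finset.mem_product.2 ⟨Finset.mem_product.2 ⟨hG k1.1, hG k2.1⟩,
      Finset.mem_product.2 ⟨hG k3.1, hG k4.1⟩⟩, ?_⟩
    have h4 := hx.2
    simp only
    omega
  · intro x hx y hy hxy
    rw [Finset.mem_coe, Finset.mem_filter] at hx hy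
    have h1 := Finset.mem_product.1 hx.1
    have h2 := Finset.mem_product.1 h1.1
    have h3 := Finset.mem_product.1 h1.2
    have h1' := Finset.mem_product.1 hy.1
    have h2' := Finset.mem_product.1 h1'.1
    have h3' := Finset.mem_product.1 h1'.2
    simp only [Prod.mk.injEq] at hxy
    obtain ⟨⟨e1, e2⟩, e3, e4⟩ := hxy
    have f1 : x.1.1 = y.1.1 := by rw [← (hg _ h2.1).2, ← (hg _ h2'.1).2, e1]
    have f2 : x.1.2 = y.1.2 := by rw [← (hg _ h2.2).2, ← (hg _ h2'.2).2, e2]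
    have f3 : x.2.1 = y.2.1 := by rw [← (hg _ h3.1).2, ← (hg _ h3'.1).2, e3]
    have f4 : x.2.2 = y.2.2 := by rw [← (hg _ h3.2).2, ← (hg _ h3'.2).2, e4]
    exact Prod.ext (Prod.ext f1 f2) (Prod.ext f3 f4)

lemma D_shift (N : ℕ) (b : ℕ → ℂ) (c u : ℤ) : D N (fun n => b n * nt c n) u = D N b (u + c) := by
  unfold D
  apply Finset.sum_congr rfl
  intro n _
  rw [nt_add]
  ring

lemma D_superpose (N : ℕ) (b : ℕ → ℂ) (x : Fin J → ℝ) (s : Fin J → ℤ) (r : ℝ) (u : ℤ) :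
    D N (fun n => b n * ((∑ j, (x j : ℂ) * nt (-s j) n) / (r : ℂ))) u =
      (∑ j, (x j : ℂ) * D N b (u - s j)) / (r : ℂ) := by
  unfold D
  rw [Finset.sum_div]
  simp only [Finset.mul_sum]
  have : ∀ j, (∑ n ∈ Icc N (2 * N), (x j : ℂ) * (b n * nt (u - s j) n)) / (r : ℂ) =
      ∑ n ∈ Icc N (2 * N), (x j : ℂ) * (b n * nt (u - s j) n) / (r : ℂ) := fun j => by
    rw [Finset.sum_div]
  simp only [this]
  rw [Finset.sum_comm]
  apply Finset.sum_congr rfl
  intro n _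
  rw [Finset.sum_div, Finset.mul_sum, Finset.sum_mul]
  apply Finset.sum_congr rfl
  intro j _
  rw [sub_eq_add_neg, nt_add]
  ring

theorem core (N : ℕ) (hN : 1 ≤ N) (b : ℕ → ℂ) (hb : ∀ n, ‖b n‖ ≤ 1) (T : ℝ) (hT : 1 ≤ T)
    (W : Finset ℤ) (hW : ∀ t ∈ W, 0 ≤ (t : ℝ) ∧ (t : ℝ) ≤ T) (hne : W.Nonempty) (V : ℝ) (hV0 : 0 ≤ V)
    (hV : ∀ t ∈ W, V ≤ ‖D N b t‖) (J : ℕ) (hJ : 1 ≤ J) (hJT : (#W * J : ℝ) ≤ T) :
    ∃ (b' : ℕ → ℂ) (U : Finset ℤ), (∀ n, ‖b' n‖ ≤ 1) ∧
      (∀ u ∈ U, 0 ≤ (u : ℝ) ∧ (u : ℝ) ≤ T ∧ V / (2 * √J * √(Real.log (16 * (N + 1)))) ≤ ‖D N b' u‖) ∧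
      (#W * J / 256 : ℝ) ≤ #U ∧
      (Finset.addEnergy U U : ℝ) ≤ 2 * (2 * J ^ 2 * #W ^ 3 + (#W * J : ℝ) ^ 4 / T) := by
  classical
  obtain ⟨m, hm⟩ : ∃ m : ℕ, m = ⌊T⌋₊ := ⟨_, rfl⟩
  obtain ⟨M, hM⟩ : ∃ M : ℕ, M = m + 1 := ⟨_, rfl⟩
  have hT0 : 0 ≤ T := by linarith
  have hmT : (m : ℝ) ≤ T := by rw [hm]; exact Nat.floor_le hT0
  have hTM : T ≤ M := by
    rw [hM, hm]
    push_cast
    exact (Nat.lt_floor_add_one T).le
  have hM1 : 1 ≤ M := by omega
  have hM0 : (0 : ℝ) < M := by exact_mod_cast hM1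
  have hJ0 : (0 : ℝ) < J := by exact_mod_cast hJ
  have hW0 : (0 : ℝ) < #W := by exact_mod_cast hne.card_pos
  have hWm : ∀ t ∈ W, 0 ≤ t ∧ t ≤ m := by
    intro t ht
    obtain ⟨h1, h2⟩ := hW t ht
    have h1' : 0 ≤ t := by exact_mod_cast h1
    refine ⟨h1', ?_⟩
    have h3 : ((t.toNat : ℕ) : ℤ) = t := Int.toNat_of_nonneg h1'
    have h4 : ((t.toNat : ℕ) : ℝ) ≤ T := by
      have : ((t.toNat : ℕ) : ℝ) = (t : ℝ) := by exact_mod_cast congrArg (fun z : ℤ => (z : ℝ)) h3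
      rw [this]
      exact h2
    have h5 : t.toNat ≤ m := by rw [hm]; exact Nat.le_floor h4
    omega
  obtain ⟨s, hs1, hs2⟩ := shifts (J := J) (M := M) W hne hJ hM1
  set P := W ×ˢ (univ : Finset (Fin J)) with hP
  set I := Icc N (2 * N) with hI
  have hIc : (#I : ℝ) = N + 1 := by
    rw [hI, Nat.card_Icc]
    have : 2 * N + 1 - N = N + 1 := by omega
    rw [this]
    push_cast
    rfl
  have hIne : I.Nonempty := ⟨N, by rw [hI, Finset.mem_Icc]; omega⟩
  obtain ⟨e, he1, he2⟩ := signs I hIne (fun j n => nt (-((s j : ℕ) : ℤ)) n)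
    (fun j n => (norm_nt _ _).le) hJ W (fun t j i => D N b (t + ((s j : ℕ) : ℤ) - ((s i : ℕ) : ℤ)))
  rw [hIc] at he1
  obtain ⟨r, hr⟩ : ∃ r : ℝ, r = 2 * √J * √(Real.log (16 * (N + 1))) := ⟨_, rfl⟩
  have hr0 : 0 < r := by
    rw [hr]
    have h1 : 0 < Real.log (16 * (N + 1)) := by
      apply Real.log_pos
      have : (0 : ℝ) ≤ N := Nat.cast_nonneg N
      linarith
    positivity
  rw [← hr] at he1
  set b₁ : ℕ → ℂ := fun n => b n * ((∑ j, (sg (e j) : ℂ) * nt (-((s j : ℕ) : ℤ)) n) / (r : ℂ)) with hb₁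
  set G := P.filter (fun p => ‖D N b (p.1 + ((s p.2 : ℕ) : ℤ) - ((s p.2 : ℕ) : ℤ))‖ ≤
    ‖∑ i, (sg (e i) : ℂ) * D N b (p.1 + ((s p.2 : ℕ) : ℤ) - ((s i : ℕ) : ℤ))‖) with hG
  have hGP : G ⊆ P := Finset.filter_subset _ _
  have hG4 : (#W * J / 4 : ℝ) ≤ #G := he2
  -- the values
  have hval : ∀ p ∈ G, V / r ≤ ‖D N b₁ (val s p)‖ := by
    intro p hp
    rw [hG, Finset.mem_filter, hP, Finset.mem_product] at hp
    obtain ⟨⟨hp1, -⟩, hp2⟩ := hp
    rw [add_sub_cancel_right] at hp2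
    rw [hb₁, D_superpose, norm_div, Complex.norm_real, Real.norm_eq_abs, abs_of_pos hr0]
    apply div_le_div_of_nonneg_right _ hr0.le
    exact (hV _ hp1).trans hp2
  -- the two halves
  set G₁ := G.filter (fun p => val s p ≤ m) with hG₁
  set G₂ := G.filter (fun p => ¬ val s p ≤ m) with hG₂
  have hsplit : (#G₁ : ℝ) + #G₂ = #G := by
    exact_mod_cast Finset.card_filter_add_card_filter_not (s := G) (fun p => val s p ≤ m)
  have hrange : ∀ p ∈ P, 0 ≤ val s p ∧ val s p ≤ 2 * m := by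
    intro p hp
    rw [hP, Finset.mem_product] at hp
    have h1 := hWm _ hp.1
    have h2 : ((s p.2 : ℕ) : ℤ) ≤ m := by
      have := (s p.2).2
      omega
    unfold val
    omega
  obtain ⟨G', c, hG'G, hG'c, hG'r⟩ : ∃ (G' : Finset (ℤ × Fin J)) (c : ℤ), G' ⊆ G ∧
      (#W * J / 8 : ℝ) ≤ #G' ∧ ∀ p ∈ G', 0 ≤ val s p - c ∧ val s p - c ≤ m := by
    rcases le_total (#W * J / 8 : ℝ) (#G₁ : ℝ) with h | h
    · refine ⟨G₁, 0, Finset.filter_subset _ _, h, ?_⟩
      intro p hp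
      rw [hG₁, Finset.mem_filter] at hp
      have := hrange p (hGP hp.1)
      omega
    · refine ⟨G₂, m + 1, Finset.filter_subset _ _, by linarith, ?_⟩
      intro p hp
      rw [hG₂, Finset.mem_filter] at hp
      have := hrange p (hGP hp.1)
      omega
  refine ⟨fun n => if n ∈ I then b₁ n * nt c n else 0, G'.image (fun p => val s p - c), ?_, ?_, ?_, ?_⟩
  · intro n
    beta_reduce
    split_ifs with hn
    · rw [norm_mul, norm_nt, mul_one, hb₁]
      simp only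
      rw [norm_mul, norm_div, Complex.norm_real, Real.norm_eq_abs, abs_of_pos hr0]
      have h1 : ‖∑ j, (sg (e j) : ℂ) * nt (-((s j : ℕ) : ℤ)) n‖ / r ≤ 1 := by
        rw [div_le_one hr0]
        exact he1 n hn
      calc ‖b n‖ * (‖∑ j, (sg (e j) : ℂ) * nt (-((s j : ℕ) : ℤ)) n‖ / r) ≤ 1 * 1 :=
            mul_le_mul (hb n) h1 (by positivity) (by norm_num)
        _ = 1 := by norm_num
    · rw [norm_zero]
      norm_num
  · intro u hu
    rw [Finset.mem_image] at hu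
    obtain ⟨p, hp, rfl⟩ := hu
    obtain ⟨h1, h2⟩ := hG'r p hp
    refine ⟨by exact_mod_cast h1, ?_, ?_⟩
    · have h3 : ((val s p - c : ℤ) : ℝ) ≤ (m : ℝ) := by exact_mod_cast h2
      linarith
    · have h3 : D N (fun n => if n ∈ I then b₁ n * nt c n else 0) (val s p - c) =
          D N (fun n => b₁ n * nt c n) (val s p - c) := by
        unfold D
        apply Finset.sum_congr rfl
        intro n hn
        beta_reduce
        rw [if_pos hn]
      rw [h3, D_shift, sub_add_cancel, ← hr]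
      exact hval p (hG'G hp)
  · have h1 := image_card P G' (hG'G.trans hGP) s c
    have h2 : (#G' : ℝ) ^ 2 ≤ #(G'.image fun p => val s p - c) * (coll P s : ℝ) := by exact_mod_cast h1
    have h3 : (coll P s : ℝ) ≤ 4 * (#W * J) := by
      refine hs1.trans ?_
      have h4 : (#W * J : ℝ) ^ 2 / M ≤ #W * J := by
        rw [div_le_iff₀ hM0, sq]
        exact mul_le_mul_of_nonneg_left (hJT.trans hTM) (by positivity)
      linarith
    have h5 : (#W * J / 8 : ℝ) ^ 2 ≤ #(G'.image fun p => val s p - c) * (4 * (#W * J)) := by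
      calc (#W * J / 8 : ℝ) ^ 2 ≤ (#G' : ℝ) ^ 2 := pow_le_pow_left₀ (by positivity) hG'c 2
        _ ≤ _ := h2
        _ ≤ _ := mul_le_mul_of_nonneg_left h3 (by positivity)
    have h6 : 0 < (#W * J : ℝ) := by positivity
    have h7 : (#W * J : ℝ) * (#W * J / 256) ≤ (#W * J) * #(G'.image fun p => val s p - c) := by
      nlinarith
    exact le_of_mul_le_mul_left h7 h6
  · have h1 := image_energy hJ P G' (hG'G.trans hGP) s c
    have h2 : (Finset.addEnergy (G'.image fun p => val s p - c) (G'.image fun p => val s p - c) : ℝ) ≤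
        enIdx P s := by exact_mod_cast h1
    refine h2.trans (hs2.trans ?_)
    have h3 : (#W * J : ℝ) ^ 4 / M ≤ (#W * J : ℝ) ^ 4 / T :=
      div_le_div_of_nonneg_left (by positivity) (by linarith) hTM
    linarith

end Pool.Agent.E8helper70.Mon
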