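import Mathlib
import Pool.Agent.E8helper70.Mon.Core
import Pool.Agent.W170.MV.Final

/-! Montgomery's large value conjecture: monotonicity of the excess. -/

open Finset

namespace Pool.Agent.E8helper70.Mon

/-- `|W| ≤ C N^{φ+ε}` for all the sets `W` of Q1, for given `A` and `σ` -/
def LargeValues (A σ φ : ℝ) : Prop := ∀ ε : ℝ, 0 < ε → ∃ C : ℝ, ∀ N : ℕ, 1 ≤ N → ∀ T : ℝ,
  (N : ℝ) ≤ T → T ≤ (N : ℝ) ^ A → ∀ b : ℕ → ℂ, (∀ n, ‖b n‖ ≤ 1) → ∀ W : Finset ℤ,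
    (∀ t ∈ W, 0 ≤ (t : ℝ) ∧ (t : ℝ) ≤ T ∧ (N : ℝ) ^ σ < ‖D N b t‖) →
      (W.card : ℝ) ≤ C * (N : ℝ) ^ (φ + ε)

/-- the same for the sets `W` with additive energy at most
`N^ε (|W|³ N^{-2κ} + |W|⁴ / T)` -/
def SmallEnergy (A σ φ κ : ℝ) : Prop := ∀ ε : ℝ, 0 < ε → ∃ C : ℝ, ∀ N : ℕ, 1 ≤ N → ∀ T : ℝ,
  (N : ℝ) ≤ T → T ≤ (N : ℝ) ^ A → ∀ b : ℕ → ℂ, (∀ n, ‖b n‖ ≤ 1) → ∀ W : Finset ℤ,
    (∀ t ∈ W, 0 ≤ (t : ℝ) ∧ (t : ℝ) ≤ T ∧ (N : ℝ) ^ σ < ‖D N b t‖) →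
    (Finset.addEnergy W W : ℝ) ≤
      (N : ℝ) ^ ε * ((W.card : ℝ) ^ 3 * (N : ℝ) ^ (-(2 * κ)) + (W.card : ℝ) ^ 4 / T) →
      (W.card : ℝ) ≤ C * (N : ℝ) ^ (φ + ε)

lemma mean_value : ∃ K : ℝ, 0 < K ∧ ∀ N : ℕ, 1 ≤ N → ∀ T : ℝ, (N : ℝ) ≤ T → ∀ b : ℕ → ℂ,
    (∀ n, ‖b n‖ ≤ 1) → ∀ W : Finset ℤ, (∀ t ∈ W, 0 ≤ (t : ℝ) ∧ (t : ℝ) ≤ T) →
      ∑ t ∈ W, ‖D N b t‖ ^ 2 ≤ K * (1 + Real.log N) ^ 3 * N * T := by
  classical
  refine ⟨2688 * W170.MV.C1 * 5, by have := W170.MV.C1_pos; positivity, ?_⟩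
  intro N hN T hT b hb W hW
  have hC := W170.MV.C1_pos
  have hN1 : (1 : ℝ) ≤ N := by exact_mod_cast hN
  have hT1 : 1 ≤ T := hN1.trans hT
  have hT0 : 0 < T := by linarith
  have hinj : Function.Injective (fun t : ℤ => (t : ℝ)) := Int.cast_injective
  set S : Finset ℝ := W.image (fun t : ℤ => (t : ℝ)) with hS
  have hS1 : ∀ t ∈ S, 0 ≤ t ∧ t ≤ T ^ 2 := by
    intro t ht
    rw [hS, mem_image] at ht
    obtain ⟨z, hz, rfl⟩ := ht
    refine ⟨(hW z hz).1, (hW z hz).2.trans ?_⟩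
    nlinarith
  have hS2 : ∀ t ∈ S, ∀ u ∈ S, t ≠ u → 1 ≤ |t - u| := by
    intro t ht u hu htu
    rw [hS, mem_image] at ht hu
    obtain ⟨z, hz, rfl⟩ := ht
    obtain ⟨w, hw, rfl⟩ := hu
    have hzw : z - w ≠ 0 := by
      intro h
      apply htu
      have : z = w := by omega
      rw [this]
    have := Int.one_le_abs hzw
    rw [← Int.cast_sub, ← Int.cast_abs]
    exact_mod_cast this
  have hcells : W170.MV.cells T S ≤ 2 := by
    unfold W170.MV.cells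
    have h1 : S.image (fun t => ⌊t / T⌋₊) ⊆ Finset.range 2 := by
      intro k hk
      rw [mem_image] at hk
      obtain ⟨t, ht, rfl⟩ := hk
      rw [hS, mem_image] at ht
      obtain ⟨z, hz, rfl⟩ := ht
      rw [Finset.mem_range]
      have h2 : (z : ℝ) / T ≤ 1 := by
        rw [div_le_one hT0]
        exact (hW z hz).2
      have h3 : ⌊(z : ℝ) / T⌋₊ ≤ ⌊(1 : ℝ)⌋₊ := Nat.floor_le_floor h2
      rw [Nat.floor_one] at h3
      omega
    exact (card_le_card h1).trans (by simp)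
  have h := W170.MV.clustered_dyadic hT1 N hN b (fun n _ => hb n) S hS1 hS2
  have h1 : ∑ t ∈ W, ‖D N b t‖ ^ 2 = ∑ t ∈ S, ‖∑ n ∈ Icc N (2 * N), b n *
      Complex.exp (Complex.I * (t * Real.log n : ℝ))‖ ^ 2 := by
    rw [hS, sum_image (fun x _ y _ hxy => hinj hxy)]
    apply sum_congr rfl
    intro t _
    congr 2
    unfold D nt
    apply sum_congr rfl
    intro n _
    congr 2
    ring
  rw [h1]
  refine h.trans ?_
  have hL : 0 ≤ Real.log N := Real.log_nonneg hN1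
  have hsq : √(N * T) ≤ T := by
    rw [Real.sqrt_le_left (by linarith)]
    nlinarith
  have h2 : (N : ℝ) + W170.MV.cells T S * (T + √(N * T)) ≤ 5 * T := by
    have h3 : (W170.MV.cells T S : ℝ) ≤ 2 := by exact_mod_cast hcells
    have h4 : 0 ≤ T + √(N * T) := by positivity
    have h5 : (W170.MV.cells T S : ℝ) * (T + √(N * T)) ≤ 2 * (T + √(N * T)) :=
      mul_le_mul_of_nonneg_right h3 h4
    linarith
  calc 2688 * W170.MV.C1 * (1 + Real.log N) ^ 3 * N * (N + W170.MV.cells T S * (T + √(N * T)))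
      ≤ 2688 * W170.MV.C1 * (1 + Real.log N) ^ 3 * N * (5 * T) :=
        mul_le_mul_of_nonneg_left h2 (by positivity)
    _ = 2688 * W170.MV.C1 * 5 * (1 + Real.log N) ^ 3 * N * T := by ring

/-- powers of the logarithm -/
lemma ev_log (K δ : ℝ) (hδ : 0 < δ) :
    ∀ᶠ N : ℕ in Filter.atTop, K * (1 + Real.log N) ^ 3 ≤ (N : ℝ) ^ δ := by
  have h1 : Filter.Tendsto (fun N : ℕ => (N : ℝ) ^ (δ / 2)) Filter.atTop Filter.atTop :=
    (tendsto_rpow_atTop (by positivity)).comp tendsto_natCast_atTop_atTop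
  filter_upwards [h1.eventually_ge_atTop (|K| * (1 + 6 / δ) ^ 3), Filter.eventually_ge_atTop 1] with
    N h2 hN
  have hN1 : (1 : ℝ) ≤ N := by exact_mod_cast hN
  have hN0 : (0 : ℝ) < N := by linarith
  have hL : 0 ≤ Real.log N := Real.log_nonneg hN1
  have h3 : Real.log N ≤ (N : ℝ) ^ (δ / 6) / (δ / 6) := Real.log_le_rpow_div hN0.le (by positivity)
  have h4 : 1 ≤ (N : ℝ) ^ (δ / 6) := Real.one_le_rpow hN1 (by positivity)
  have h5 : 1 + Real.log N ≤ (1 + 6 / δ) * (N : ℝ) ^ (δ / 6) := by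
    have : (N : ℝ) ^ (δ / 6) / (δ / 6) = 6 / δ * (N : ℝ) ^ (δ / 6) := by field_simp
    rw [this] at h3
    linarith
  have h6 : (1 + Real.log N) ^ 3 ≤ (1 + 6 / δ) ^ 3 * (N : ℝ) ^ (δ / 2) := by
    calc (1 + Real.log N) ^ 3 ≤ ((1 + 6 / δ) * (N : ℝ) ^ (δ / 6)) ^ 3 :=
          pow_le_pow_left₀ (by linarith) h5 3
      _ = (1 + 6 / δ) ^ 3 * (N : ℝ) ^ (δ / 2) := by
          rw [mul_pow, ← Real.rpow_natCast ((N : ℝ) ^ (δ / 6)), ← Real.rpow_mul hN0.le]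
          congr 2
          push_cast
          ring
  calc K * (1 + Real.log N) ^ 3 ≤ |K| * (1 + Real.log N) ^ 3 :=
        mul_le_mul_of_nonneg_right (le_abs_self K) (by positivity)
    _ ≤ |K| * ((1 + 6 / δ) ^ 3 * (N : ℝ) ^ (δ / 2)) := mul_le_mul_of_nonneg_left h6 (abs_nonneg K)
    _ = (|K| * (1 + 6 / δ) ^ 3) * (N : ℝ) ^ (δ / 2) := by ring
    _ ≤ (N : ℝ) ^ (δ / 2) * (N : ℝ) ^ (δ / 2) := mul_le_mul_of_nonneg_right h2 (by positivity)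
    _ = (N : ℝ) ^ δ := by
        rw [← Real.rpow_add hN0]
        congr 1
        ring

lemma energy_le (W : Finset ℤ) : (Finset.addEnergy W W : ℝ) ≤ (W.card : ℝ) ^ 3 := by
  have h : Finset.addEnergy W W ≤ #(W ×ˢ (W ×ˢ W)) := by
    unfold Finset.addEnergy
    apply Finset.card_le_card_of_injOn (fun x => (x.1.1, (x.1.2, x.2.1)))
    · intro x hx
      rw [Finset.mem_coe, Finset.mem_filter] at hx
      have h1 := Finset.mem_product.1 hx.1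
      have h2 := Finset.mem_product.1 h1.1
      have h3 := Finset.mem_product.1 h1.2
      exact Finset.mem_coe.2 (Finset.mem_product.2 ⟨h2.1, Finset.mem_product.2 ⟨h2.2, h3.1⟩⟩)
    · intro x hx y hy hxy
      rw [Finset.mem_coe, Finset.mem_filter] at hx hy
      simp only [Prod.mk.injEq] at hxy
      obtain ⟨e1, e2, e3⟩ := hxy
      have e4 : x.2.2 = y.2.2 := by
        have h1 := hx.2
        have h2 := hy.2
        rw [e1, e2, e3] at h1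
        omega
      exact Prod.ext (Prod.ext e1 e2) (Prod.ext e3 e4)
  rw [Finset.card_product, Finset.card_product] at h
  calc (Finset.addEnergy W W : ℝ) ≤ ((#W * (#W * #W) : ℕ) : ℝ) := by exact_mod_cast h
    _ = (W.card : ℝ) ^ 3 := by push_cast; ring

/-- a bound for large `N` gives a bound for all `N` -/
lemma of_large (A : ℝ) (φ : ℝ) (P : ℕ → ℝ → (ℕ → ℂ) → Finset ℤ → Prop)
    (hP : ∀ N T b W, P N T b W → ∀ t ∈ W, 0 ≤ (t : ℝ) ∧ (t : ℝ) ≤ T) (C : ℝ) (N₀ : ℕ)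
    (h : ∀ N : ℕ, 1 ≤ N → N₀ ≤ N → ∀ T : ℝ, (N : ℝ) ≤ T → T ≤ (N : ℝ) ^ A → ∀ b : ℕ → ℂ,
      ∀ W : Finset ℤ, P N T b W → (W.card : ℝ) ≤ C * (N : ℝ) ^ φ) :
    ∃ C' : ℝ, ∀ N : ℕ, 1 ≤ N → ∀ T : ℝ, (N : ℝ) ≤ T → T ≤ (N : ℝ) ^ A → ∀ b : ℕ → ℂ,
      ∀ W : Finset ℤ, P N T b W → (W.card : ℝ) ≤ C' * (N : ℝ) ^ φ := by
  refine ⟨|C| + ((N₀ : ℝ) ^ |A| + 1) * (N₀ : ℝ) ^ |φ|, ?_⟩
  intro N hN T hT hTA b W hW
  have hN1 : (1 : ℝ) ≤ N := by exact_mod_cast hN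
  have hN0 : (0 : ℝ) < N := by linarith
  have hpos : 0 < (N : ℝ) ^ φ := Real.rpow_pos_of_pos hN0 _
  rcases le_or_gt N₀ N with hle | hlt
  · have h1 := h N hN hle T hT hTA b W hW
    have h2 : 0 ≤ ((N₀ : ℝ) ^ |A| + 1) * (N₀ : ℝ) ^ |φ| := by positivity
    calc (W.card : ℝ) ≤ C * (N : ℝ) ^ φ := h1
      _ ≤ (|C| + ((N₀ : ℝ) ^ |A| + 1) * (N₀ : ℝ) ^ |φ|) * (N : ℝ) ^ φ := by
          apply mul_le_mul_of_nonneg_right _ hpos.le
          have := le_abs_self C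
          linarith
  · have hNN : (N : ℝ) ≤ N₀ := by exact_mod_cast hlt.le
    have hT0 : 0 ≤ T := by linarith
    have h1 : (W.card : ℝ) ≤ T + 1 := by
      have h2 : W ⊆ Finset.Icc (0 : ℤ) ⌊T⌋ := by
        intro t ht
        obtain ⟨h3, h4⟩ := hP N T b W hW t ht
        rw [Finset.mem_Icc]
        exact ⟨by exact_mod_cast h3, Int.le_floor.2 h4⟩
      have h3 := Finset.card_le_card h2
      rw [Int.card_Icc] at h3
      have h4 : 0 ≤ ⌊T⌋ := Int.floor_nonneg.2 hT0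
      have h5 : ((⌊T⌋ + 1 - 0).toNat : ℝ) = ⌊T⌋ + 1 := by
        have : ((⌊T⌋ + 1 - 0).toNat : ℤ) = ⌊T⌋ + 1 := by
          rw [Int.toNat_of_nonneg (by omega)]
          ring
        exact_mod_cast congrArg (fun z : ℤ => (z : ℝ)) this
      have h6 : (W.card : ℝ) ≤ ((⌊T⌋ + 1 - 0).toNat : ℝ) := by exact_mod_cast h3
      rw [h5] at h6
      have := Int.floor_le T
      linarith
    have h2 : T ≤ (N₀ : ℝ) ^ |A| := by
      calc T ≤ (N : ℝ) ^ A := hTA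
        _ ≤ (N : ℝ) ^ |A| := Real.rpow_le_rpow_of_exponent_le hN1 (le_abs_self A)
        _ ≤ (N₀ : ℝ) ^ |A| := Real.rpow_le_rpow hN0.le hNN (abs_nonneg A)
    have h3 : 1 ≤ (N₀ : ℝ) ^ |φ| * (N : ℝ) ^ φ := by
      have h4 : (N : ℝ) ^ (-|φ|) ≤ (N : ℝ) ^ φ :=
        Real.rpow_le_rpow_of_exponent_le hN1 (neg_abs_le φ)
      have h5 : (N : ℝ) ^ |φ| ≤ (N₀ : ℝ) ^ |φ| := Real.rpow_le_rpow hN0.le hNN (abs_nonneg φ)
      have h6 : (N : ℝ) ^ |φ| * (N : ℝ) ^ (-|φ|) = 1 := by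
        rw [← Real.rpow_add hN0]
        simp
      calc (1 : ℝ) = (N : ℝ) ^ |φ| * (N : ℝ) ^ (-|φ|) := h6.symm
        _ ≤ (N₀ : ℝ) ^ |φ| * (N : ℝ) ^ φ := mul_le_mul h5 h4 (by positivity) (by positivity)
    calc (W.card : ℝ) ≤ (N₀ : ℝ) ^ |A| + 1 := by linarith
      _ = ((N₀ : ℝ) ^ |A| + 1) * 1 := by ring
      _ ≤ ((N₀ : ℝ) ^ |A| + 1) * ((N₀ : ℝ) ^ |φ| * (N : ℝ) ^ φ) :=
          mul_le_mul_of_nonneg_left h3 (by positivity)
      _ = (((N₀ : ℝ) ^ |A| + 1) * (N₀ : ℝ) ^ |φ|) * (N : ℝ) ^ φ := by ring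
      _ ≤ (|C| + ((N₀ : ℝ) ^ |A| + 1) * (N₀ : ℝ) ^ |φ|) * (N : ℝ) ^ φ := by
          apply mul_le_mul_of_nonneg_right _ hpos.le
          have := abs_nonneg C
          linarith

theorem main (A σ φ κ : ℝ) (hσ : 1 / 2 < σ) (hκ : 0 ≤ κ) (h : SmallEnergy A σ φ κ) :
    LargeValues A (σ + κ) (φ - 2 * κ) := by
  classical
  intro ε hε
  obtain ⟨C₀, hC₀⟩ := h (ε / 4) (by positivity)
  obtain ⟨K, hK, hmv⟩ := mean_value
  -- reduce to large N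
  suffices hlarge : ∃ (C : ℝ) (N₀ : ℕ), ∀ N : ℕ, 1 ≤ N → N₀ ≤ N → ∀ T : ℝ, (N : ℝ) ≤ T →
      T ≤ (N : ℝ) ^ A → ∀ b : ℕ → ℂ, ∀ W : Finset ℤ, ((∀ n, ‖b n‖ ≤ 1) ∧
        ∀ t ∈ W, 0 ≤ (t : ℝ) ∧ (t : ℝ) ≤ T ∧ (N : ℝ) ^ (σ + κ) < ‖D N b t‖) →
        (W.card : ℝ) ≤ C * (N : ℝ) ^ (φ - 2 * κ + ε) by
    obtain ⟨C, N₀, hC⟩ := hlarge
    obtain ⟨C', hC'⟩ := of_large A (φ - 2 * κ + ε) (fun N T b W => (∀ n, ‖b n‖ ≤ 1) ∧
        ∀ t ∈ W, 0 ≤ (t : ℝ) ∧ (t : ℝ) ≤ T ∧ (N : ℝ) ^ (σ + κ) < ‖D N b t‖)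
        (fun N T b W hW t ht => ⟨(hW.2 t ht).1, (hW.2 t ht).2.1⟩) C N₀ hC
    exact ⟨C', fun N hN T hT hTA b hb W hW => hC' N hN T hT hTA b W ⟨hb, hW⟩⟩
  rcases le_or_gt (2 * κ) (ε / 4) with hsmall | hbig
  · -- no superposition is needed
    refine ⟨|C₀|, 0, ?_⟩
    rintro N hN - T hT hTA b W ⟨hb, hW⟩
    have hN1 : (1 : ℝ) ≤ N := by exact_mod_cast hN
    have hN0 : (0 : ℝ) < N := by linarith
    have hT0 : 0 < T := by linarith
    have h1 := hC₀ N hN T hT hTA b hb W (fun t ht => ⟨(hW t ht).1, (hW t ht).2.1,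
      lt_of_le_of_lt (Real.rpow_le_rpow_of_exponent_le hN1 (by linarith)) (hW t ht).2.2⟩) (by
        refine (energy_le W).trans ?_
        have h2 : 1 ≤ (N : ℝ) ^ (ε / 4) * (N : ℝ) ^ (-(2 * κ)) := by
          rw [← Real.rpow_add hN0]
          exact Real.one_le_rpow hN1 (by linarith)
        have h3 : 0 ≤ (W.card : ℝ) ^ 4 / T := by positivity
        have h4 : 0 ≤ (N : ℝ) ^ (ε / 4) * ((W.card : ℝ) ^ 4 / T) := by positivity
        have h5 : 0 ≤ (W.card : ℝ) ^ 3 := by positivity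
        calc (W.card : ℝ) ^ 3 = (W.card : ℝ) ^ 3 * 1 := by ring
          _ ≤ (W.card : ℝ) ^ 3 * ((N : ℝ) ^ (ε / 4) * (N : ℝ) ^ (-(2 * κ))) :=
              mul_le_mul_of_nonneg_left h2 h5
          _ ≤ (N : ℝ) ^ (ε / 4) * ((W.card : ℝ) ^ 3 * (N : ℝ) ^ (-(2 * κ)) + (W.card : ℝ) ^ 4 / T) := by
              linarith)
    calc (W.card : ℝ) ≤ C₀ * (N : ℝ) ^ (φ + ε / 4) := h1
      _ ≤ |C₀| * (N : ℝ) ^ (φ + ε / 4) := mul_le_mul_of_nonneg_right (le_abs_self _) (by positivity)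
      _ ≤ |C₀| * (N : ℝ) ^ (φ - 2 * κ + ε) :=
          mul_le_mul_of_nonneg_left (Real.rpow_le_rpow_of_exponent_le hN1 (by linarith))
            (abs_nonneg _)
  · -- superposition of `J` translates
    have e1 := ev_log K (ε / 8) (by positivity)
    have e2 := ev_log 20 (ε / 8) (by positivity)
    have e3 := ev_log (2 * 256 ^ 4) (ε / 8) (by positivity)
    obtain ⟨N₀, hN₀⟩ := Filter.eventually_atTop.1 (e1.and (e2.and e3))
    refine ⟨512 * |C₀|, N₀, ?_⟩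
    rintro N hN hNN T hT hTA b W ⟨hb, hW⟩
    obtain ⟨f1, f2, f3⟩ := hN₀ N hNN
    have hN1 : (1 : ℝ) ≤ N := by exact_mod_cast hN
    have hN0 : (0 : ℝ) < N := by linarith
    have hT1 : 1 ≤ T := hN1.trans hT
    have hT0 : 0 < T := by linarith
    have hL : 0 ≤ Real.log N := Real.log_nonneg hN1
    rcases W.eq_empty_or_nonempty with hW0 | hne
    · rw [hW0, Finset.card_empty]
      push_cast
      positivity
    have hR0 : (0 : ℝ) < W.card := by exact_mod_cast hne.card_pos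
    obtain ⟨θ, hθ⟩ : ∃ θ : ℝ, θ = 2 * κ - ε / 8 := ⟨_, rfl⟩
    have hθ0 : 0 < θ := by rw [hθ]; linarith
    obtain ⟨J, hJdef⟩ : ∃ J : ℕ, J = ⌊(N : ℝ) ^ θ⌋₊ := ⟨_, rfl⟩
    have hNθ : 1 ≤ (N : ℝ) ^ θ := Real.one_le_rpow hN1 hθ0.le
    have hJ1 : 1 ≤ J := by rw [hJdef]; exact Nat.one_le_floor_iff _ |>.2 hNθ
    have hJr : (1 : ℝ) ≤ J := by exact_mod_cast hJ1
    have hJ0 : (0 : ℝ) < J := by linarith
    have hJle : (J : ℝ) ≤ (N : ℝ) ^ θ := by rw [hJdef]; exact Nat.floor_le (by positivity)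
    have hJge : (N : ℝ) ^ θ ≤ 2 * J := by
      have := Nat.lt_floor_add_one ((N : ℝ) ^ θ)
      rw [← hJdef] at this
      linarith
    obtain ⟨V, hVdef⟩ : ∃ V : ℝ, V = (N : ℝ) ^ (σ + κ) := ⟨_, rfl⟩
    have hV0 : 0 < V := by rw [hVdef]; positivity
    -- the number of points times `J` is at most `T`
    have hJT : (#W * J : ℝ) ≤ T := by
      have h1 := hmv N hN T hT b hb W (fun t ht => ⟨(hW t ht).1, (hW t ht).2.1⟩)
      have h2 : (W.card : ℝ) * V ^ 2 ≤ ∑ t ∈ W, ‖D N b t‖ ^ 2 := by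
        rw [← nsmul_eq_mul, ← Finset.sum_const]
        apply Finset.sum_le_sum
        intro t ht
        apply pow_le_pow_left₀ hV0.le
        rw [hVdef]
        exact (hW t ht).2.2.le
      have h3 : V ^ 2 = (N : ℝ) ^ (2 * σ + 2 * κ) := by
        rw [hVdef, ← Real.rpow_natCast, ← Real.rpow_mul hN0.le]
        congr 1
        push_cast
        ring
      have h4 : (W.card : ℝ) * (N : ℝ) ^ (2 * σ + 2 * κ) ≤ (N : ℝ) ^ (ε / 8) * N * T := by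
        rw [← h3]
        refine h2.trans (h1.trans ?_)
        have : 0 ≤ (N : ℝ) * T := by positivity
        nlinarith
      have h5 : (N : ℝ) * ((N : ℝ) ^ (ε / 8) * (N : ℝ) ^ θ) ≤ (N : ℝ) ^ (2 * σ + 2 * κ) := by
        rw [← Real.rpow_add hN0]
        nth_rewrite 1 [← Real.rpow_one (N : ℝ)]
        rw [← Real.rpow_add hN0]
        apply Real.rpow_le_rpow_of_exponent_le hN1
        rw [hθ]
        linarith
      have h6 : (W.card : ℝ) * J * ((N : ℝ) * (N : ℝ) ^ (ε / 8)) ≤ T * ((N : ℝ) * (N : ℝ) ^ (ε / 8)) := by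
        calc (W.card : ℝ) * J * ((N : ℝ) * (N : ℝ) ^ (ε / 8))
            ≤ (W.card : ℝ) * (N : ℝ) ^ θ * ((N : ℝ) * (N : ℝ) ^ (ε / 8)) := by gcongr
          _ = (W.card : ℝ) * ((N : ℝ) * ((N : ℝ) ^ (ε / 8) * (N : ℝ) ^ θ)) := by ring
          _ ≤ (W.card : ℝ) * (N : ℝ) ^ (2 * σ + 2 * κ) := by gcongr
          _ ≤ (N : ℝ) ^ (ε / 8) * N * T := h4
          _ = _ := by ring
      exact le_of_mul_le_mul_right h6 (by positivity)
    obtain ⟨b', U, hb', hU, hUc, hUe⟩ := core N hN b hb T hT1 W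
      (fun t ht => ⟨(hW t ht).1, (hW t ht).2.1⟩) hne V hV0.le
      (fun t ht => by rw [hVdef]; exact (hW t ht).2.2.le) J hJ1 hJT
    -- the level
    have hlev : (N : ℝ) ^ σ < V / (2 * √J * √(Real.log (16 * (N + 1)))) := by
      have hlog : 0 < Real.log (16 * (N + 1)) := Real.log_pos (by linarith)
      have hr0 : 0 < 2 * √J * √(Real.log (16 * (N + 1))) := by positivity
      rw [lt_div_iff₀ hr0]
      have h1 : (2 * √J * √(Real.log (16 * (N + 1)))) ^ 2 = 4 * J * Real.log (16 * (N + 1)) := by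
        rw [mul_pow, mul_pow, Real.sq_sqrt hJ0.le, Real.sq_sqrt hlog.le]
        ring
      have h2 : Real.log (16 * (N + 1)) ≤ 4 * (1 + Real.log N) := by
        have h3 : (16 * (N + 1) : ℝ) ≤ 32 * N := by linarith
        have h4 : Real.log (16 * (N + 1)) ≤ Real.log (32 * N) := Real.log_le_log (by linarith) h3
        rw [Real.log_mul (by norm_num) hN0.ne'] at h4
        have h5 : Real.log 32 ≤ 4 := by
          have h6 : (32 : ℝ) = 2 ^ 5 := by norm_num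
          rw [h6, Real.log_pow]
          have := Real.log_two_lt_d9
          push_cast
          linarith
        linarith
      have h3 : 1 + Real.log N ≤ (1 + Real.log N) ^ 3 := by
        have : 1 ≤ 1 + Real.log N := by linarith
        nlinarith [sq_nonneg (Real.log N), mul_nonneg hL hL]
      have h4 : (2 * √J * √(Real.log (16 * (N + 1)))) ^ 2 < ((N : ℝ) ^ κ) ^ 2 := by
        rw [h1]
        have h5 : ((N : ℝ) ^ κ) ^ 2 = (N : ℝ) ^ θ * (N : ℝ) ^ (ε / 8) := by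
          rw [← Real.rpow_natCast, ← Real.rpow_mul hN0.le, ← Real.rpow_add hN0]
          congr 1
          rw [hθ]
          push_cast
          ring
        rw [h5]
        calc 4 * J * Real.log (16 * (N + 1)) ≤ 4 * (N : ℝ) ^ θ * (4 * (1 + Real.log N) ^ 3) := by
              gcongr
              linarith
          _ = (N : ℝ) ^ θ * (16 * (1 + Real.log N) ^ 3) := by ring
          _ < (N : ℝ) ^ θ * (20 * (1 + Real.log N) ^ 3) := by
              gcongr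
              norm_num
          _ ≤ (N : ℝ) ^ θ * (N : ℝ) ^ (ε / 8) := by gcongr
      have h5 := lt_of_pow_lt_pow_left₀ 2 (by positivity) h4
      calc (N : ℝ) ^ σ * (2 * √J * √(Real.log (16 * (N + 1)))) < (N : ℝ) ^ σ * (N : ℝ) ^ κ := by
            gcongr
        _ = V := by rw [hVdef, Real.rpow_add hN0]
    -- the energy
    obtain ⟨R, hR⟩ : ∃ R : ℝ, R = (#W * J : ℝ) := ⟨_, rfl⟩
    have hRU : R ≤ 256 * #U := by
      rw [hR]
      linarith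
    have hRpos : 0 < R := by rw [hR]; positivity
    have hUe' : (Finset.addEnergy U U : ℝ) ≤
        (N : ℝ) ^ (ε / 4) * ((#U : ℝ) ^ 3 * (N : ℝ) ^ (-(2 * κ)) + (#U : ℝ) ^ 4 / T) := by
      have h1 : (2 * J ^ 2 * #W ^ 3 : ℝ) = 2 * (R ^ 3 / J) := by
        rw [hR]
        field_simp
      have h2 : 1 / (J : ℝ) ≤ 2 * (N : ℝ) ^ (-θ) := by
        rw [Real.rpow_neg hN0.le, div_le_iff₀ hJ0]
        have : 2 * ((N : ℝ) ^ θ)⁻¹ * J = (2 * J) / (N : ℝ) ^ θ := by field_simp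
        rw [this, le_div_iff₀ (by positivity)]
        linarith
      have h3 : R ^ 3 / J ≤ 256 ^ 3 * #U ^ 3 * (2 * (N : ℝ) ^ (-θ)) := by
        calc R ^ 3 / J = R ^ 3 * (1 / J) := by ring
          _ ≤ (256 * #U) ^ 3 * (2 * (N : ℝ) ^ (-θ)) := by gcongr
          _ = _ := by ring
      have h4 : (#W * J : ℝ) ^ 4 / T ≤ 256 ^ 4 * (#U ^ 4 / T) := by
        rw [← hR]
        calc R ^ 4 / T ≤ (256 * #U) ^ 4 / T := by gcongr
          _ = _ := by ring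
      have h5 : (N : ℝ) ^ (-θ) = (N : ℝ) ^ (ε / 8) * (N : ℝ) ^ (-(2 * κ)) := by
        rw [← Real.rpow_add hN0]
        congr 1
        rw [hθ]
        ring
      have h6 : 1 ≤ (1 + Real.log N) ^ 3 := one_le_pow₀ (by linarith)
      have h7 : (2 : ℝ) * 256 ^ 4 ≤ (N : ℝ) ^ (ε / 8) := by
        calc (2 : ℝ) * 256 ^ 4 = 2 * 256 ^ 4 * 1 := by ring
          _ ≤ 2 * 256 ^ 4 * (1 + Real.log N) ^ 3 := by gcongr
          _ ≤ _ := f3
      have h8 : 1 ≤ (N : ℝ) ^ (ε / 8) := Real.one_le_rpow hN1 (by positivity)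
      have h9 : (N : ℝ) ^ (ε / 4) = (N : ℝ) ^ (ε / 8) * (N : ℝ) ^ (ε / 8) := by
        rw [← Real.rpow_add hN0]
        congr 1
        ring
      have x0 : 0 ≤ (#U : ℝ) ^ 3 * (N : ℝ) ^ (-(2 * κ)) := by positivity
      have y0 : 0 ≤ (#U : ℝ) ^ 4 / T := by positivity
      calc (Finset.addEnergy U U : ℝ) ≤ 2 * (2 * J ^ 2 * #W ^ 3 + (#W * J : ℝ) ^ 4 / T) := hUe
        _ ≤ 2 * (2 * (256 ^ 3 * #U ^ 3 * (2 * (N : ℝ) ^ (-θ))) + 256 ^ 4 * (#U ^ 4 / T)) := by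
            rw [h1]
            linarith
        _ = 8 * 256 ^ 3 * (N : ℝ) ^ (ε / 8) * ((#U : ℝ) ^ 3 * (N : ℝ) ^ (-(2 * κ))) +
              2 * 256 ^ 4 * 1 * ((#U : ℝ) ^ 4 / T) := by
            rw [h5]
            ring
        _ ≤ 2 * 256 ^ 4 * (N : ℝ) ^ (ε / 8) * ((#U : ℝ) ^ 3 * (N : ℝ) ^ (-(2 * κ))) +
              2 * 256 ^ 4 * (N : ℝ) ^ (ε / 8) * ((#U : ℝ) ^ 4 / T) := by
            have c1 : (8 * 256 ^ 3 : ℝ) ≤ 2 * 256 ^ 4 := by norm_num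
            have c2 : 0 ≤ (N : ℝ) ^ (ε / 8) * ((#U : ℝ) ^ 3 * (N : ℝ) ^ (-(2 * κ))) := by positivity
            have c3 := mul_le_mul_of_nonneg_right c1 c2
            have c4 : (2 * 256 ^ 4 * 1 : ℝ) * ((#U : ℝ) ^ 4 / T) ≤
                2 * 256 ^ 4 * (N : ℝ) ^ (ε / 8) * ((#U : ℝ) ^ 4 / T) :=
              mul_le_mul_of_nonneg_right (mul_le_mul_of_nonneg_left h8 (by norm_num)) y0
            linarith
        _ = (2 * 256 ^ 4) * ((N : ℝ) ^ (ε / 8) *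
              ((#U : ℝ) ^ 3 * (N : ℝ) ^ (-(2 * κ)) + (#U : ℝ) ^ 4 / T)) := by ring
        _ ≤ (N : ℝ) ^ (ε / 8) * ((N : ℝ) ^ (ε / 8) *
              ((#U : ℝ) ^ 3 * (N : ℝ) ^ (-(2 * κ)) + (#U : ℝ) ^ 4 / T)) := by gcongr
        _ = _ := by rw [h9]; ring
    have hfin := hC₀ N hN T hT hTA b' hb' U
      (fun u hu => ⟨(hU u hu).1, (hU u hu).2.1, lt_of_lt_of_le hlev (hU u hu).2.2⟩) hUe'
    have h1 : R ≤ 256 * |C₀| * (N : ℝ) ^ (φ + ε / 4) := by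
      calc R ≤ 256 * #U := hRU
        _ ≤ 256 * (C₀ * (N : ℝ) ^ (φ + ε / 4)) := by gcongr
        _ ≤ 256 * (|C₀| * (N : ℝ) ^ (φ + ε / 4)) := by
            gcongr
            exact le_abs_self _
        _ = _ := by ring
    have h2 : (#W : ℝ) * (N : ℝ) ^ θ ≤ 512 * |C₀| * (N : ℝ) ^ (φ + ε / 4) := by
      calc (#W : ℝ) * (N : ℝ) ^ θ ≤ #W * (2 * J) := by gcongr
        _ = 2 * R := by rw [hR]; ring
        _ ≤ _ := by linarith
    have h3 : (#W : ℝ) ≤ 512 * |C₀| * (N : ℝ) ^ (φ + ε / 4) / (N : ℝ) ^ θ := by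
      rw [le_div_iff₀ (by positivity)]
      exact h2
    refine h3.trans ?_
    rw [mul_div_assoc, ← Real.rpow_sub hN0]
    apply mul_le_mul_of_nonneg_left _ (by positivity)
    apply Real.rpow_le_rpow_of_exponent_le hN1
    rw [hθ]
    linarith

theorem critical (A : ℝ) : (∀ σ : ℝ, 1 / 2 < σ → LargeValues A σ (2 - 2 * σ)) ↔
    ∀ σ : ℝ, 1 / 2 < σ → LargeValues A σ 1 := by
  constructor
  · intro h σ hσ ε hε
    obtain ⟨C, hC⟩ := h σ hσ ε hε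
    refine ⟨|C|, fun N hN T hT hTA b hb W hW => (hC N hN T hT hTA b hb W hW).trans ?_⟩
    have hN1 : (1 : ℝ) ≤ N := by exact_mod_cast hN
    calc C * (N : ℝ) ^ (2 - 2 * σ + ε) ≤ |C| * (N : ℝ) ^ (2 - 2 * σ + ε) :=
          mul_le_mul_of_nonneg_right (le_abs_self C) (by positivity)
      _ ≤ |C| * (N : ℝ) ^ (1 + ε) :=
          mul_le_mul_of_nonneg_left (Real.rpow_le_rpow_of_exponent_le hN1 (by linarith)) (abs_nonneg C)
  · intro h σ hσ ε hε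
    obtain ⟨η, hη⟩ : ∃ η : ℝ, η = min (ε / 4) ((σ - 1 / 2) / 2) := ⟨_, rfl⟩
    have hη0 : 0 < η := by rw [hη]; exact lt_min (by positivity) (by linarith)
    have hη1 : η ≤ ε / 4 := by rw [hη]; exact min_le_left _ _
    have hη2 : η ≤ (σ - 1 / 2) / 2 := by rw [hη]; exact min_le_right _ _
    have h1 : SmallEnergy A (1 / 2 + η) 1 (σ - (1 / 2 + η)) := by
      intro e he
      obtain ⟨C, hC⟩ := h (1 / 2 + η) (by linarith) e he
      exact ⟨C, fun N hN T hT hTA b hb W hW _ => hC N hN T hT hTA b hb W hW⟩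
    have h2 := main A (1 / 2 + η) 1 (σ - (1 / 2 + η)) (by linarith) (by linarith) h1
    obtain ⟨C, hC⟩ := h2 (ε / 2) (by positivity)
    refine ⟨|C|, fun N hN T hT hTA b hb W hW => ?_⟩
    have hN1 : (1 : ℝ) ≤ N := by exact_mod_cast hN
    have h3 := hC N hN T hT hTA b hb W (fun t ht => ⟨(hW t ht).1, (hW t ht).2.1, by
      rw [add_sub_cancel]
      exact (hW t ht).2.2⟩)
    calc (W.card : ℝ) ≤ C * (N : ℝ) ^ (1 - 2 * (σ - (1 / 2 + η)) + ε / 2) := h3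
      _ ≤ |C| * (N : ℝ) ^ (1 - 2 * (σ - (1 / 2 + η)) + ε / 2) :=
          mul_le_mul_of_nonneg_right (le_abs_self C) (by positivity)
      _ ≤ |C| * (N : ℝ) ^ (2 - 2 * σ + ε) :=
          mul_le_mul_of_nonneg_left (Real.rpow_le_rpow_of_exponent_le hN1 (by linarith)) (abs_nonneg C)

end Pool.Agent.E8helper70.Mon
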